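import Pool.Agent.W_a862e4_ls.Final

namespace Pool.Agent.Results.MP_a862e4_co.AllGraphs

/-- Every finite graph `G` with chromatic number at least `2 ^ 50 p` contains a `p`-scheme. -/
theorem result (V : Type) [Fintype V] (G : SimpleGraph V) (p k : ℕ)
    (hk : G.chromaticNumber = (k : ℕ∞)) (h : 2 ^ 50 * p ≤ k) :
    ∃ v : Fin p → V, Function.Injective v ∧
      ∃ C : Fin p → Fin p → Set V,
        (∀ i j, C i j = C j i) ∧
        (∀ i j, i ≠ j →
          v i ∈ C i j ∧ v j ∈ C i j ∧ (G.induce (C i j)).Connected) ∧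
        (∀ i j k l, i ≠ j → i ≠ k → i ≠ l → j ≠ k → j ≠ l → k ≠ l →
          Disjoint (C i j) (C k l)) :=
  Pool.MP_a862e4_co.LS.final G p k hk h

end Pool.Agent.Results.MP_a862e4_co.AllGraphs
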