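import Pool.Agent.W_a862e4_h46.Final

namespace Pool.Agent.Results.MP_a862e4_co.LinearSchemes

/-- Let `G` be a finite graph with chromatic number `k ≥ 1` in which every nonempty vertex set `S` has a vertex
with at most `D` neighbours in `S`, and let `n ≥ 1`.  Then `G` contains a `p`-scheme for some `p ≥ 1` with
`2 (n+1) (k-1) ≤ 2 D + n (3^n - 1) (p-1)`. -/
theorem result (V : Type) [Fintype V] (G : SimpleGraph V) (k D n : ℕ)
    (hk : G.chromaticNumber = (k : ℕ∞)) (hk1 : 1 ≤ k) (hn : 1 ≤ n)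
    (hD : ∀ S : Set V, S.Nonempty → ∃ x ∈ S, {y | y ∈ S ∧ G.Adj x y}.ncard ≤ D) :
    ∃ p : ℕ, 1 ≤ p ∧ 2 * ((n + 1) * (k - 1)) ≤ 2 * D + n * (3 ^ n - 1) * (p - 1) ∧
      ∃ v : Fin p → V, Function.Injective v ∧
        ∃ C : Fin p → Fin p → Set V,
          (∀ i j, C i j = C j i) ∧
          (∀ i j, i ≠ j →
            v i ∈ C i j ∧ v j ∈ C i j ∧ (G.induce (C i j)).Connected) ∧
          (∀ i j k l, i ≠ j → i ≠ k → i ≠ l → j ≠ k → j ≠ l → k ≠ l →
            Disjoint (C i j) (C k l)) :=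
  PSch46.final G k D n hk hk1 hn hD

end Pool.Agent.Results.MP_a862e4_co.LinearSchemes
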